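import Mathlib

/-!
# Sums of independent perturbations: a second moment argument in blocks
-/

set_option autoImplicit false
set_option linter.unusedSectionVars false
set_option linter.deprecated false

namespace Pool.Agent.Q241.PW

open MeasureTheory ProbabilityTheory

variable {Ω : Type} [MeasurableSpace Ω] {P : Measure Ω}

/-- `Φ` depends only on the values in `S`. -/
def DepOn {α : Sort*} (S : Finset ℕ) (Φ : (ℕ → ℕ) → α) : Prop :=
  ∀ f g : ℕ → ℕ, (∀ x ∈ S, f x = g x) → Φ f = Φ g

/-- Extension by zero. -/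
def ext (S : Finset ℕ) (a : S → ℕ) : ℕ → ℕ := fun x => if h : x ∈ S then a ⟨x, h⟩ else 0

lemma ext_eq (S : Finset ℕ) (f : ℕ → ℕ) {x : ℕ} (hx : x ∈ S) : ext S (fun i => f i) x = f x := by
  simp [ext, hx]

lemma preim {S : Finset ℕ} {Φ : (ℕ → ℕ) → Prop} (h : DepOn S Φ) (e : ℕ → Ω → ℕ) :
    {ω | Φ (fun x => e x ω)} = (fun ω (i : S) => e i ω) ⁻¹' {a | Φ (ext S a)} := by
  ext ω
  simp only [Set.mem_setOf_eq, Set.mem_preimage]
  rw [h (fun x => e x ω) (ext S (fun i : S => e i ω)) (fun x hx => (ext_eq S (fun x => e x ω) hx).symm)]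

lemma meas_tuple (S : Finset ℕ) {e : ℕ → Ω → ℕ} (hm : ∀ x, Measurable (e x)) :
    Measurable (fun ω (i : S) => e i ω) := measurable_pi_lambda _ (fun i => hm i)

lemma meas_dep {S : Finset ℕ} {Φ : (ℕ → ℕ) → Prop} (h : DepOn S Φ) {e : ℕ → Ω → ℕ}
    (hm : ∀ x, Measurable (e x)) : MeasurableSet {ω | Φ (fun x => e x ω)} := by
  rw [preim h e]
  exact meas_tuple S hm (Set.to_countable _).measurableSet

/-- Independence of events that depend on disjoint sets of indices. -/
lemma indepEv {e : ℕ → Ω → ℕ} (he : iIndepFun e P) (hm : ∀ x, Measurable (e x)) {S T : Finset ℕ}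
    (hST : Disjoint S T) {Φ Ψ : (ℕ → ℕ) → Prop} (hΦ : DepOn S Φ) (hΨ : DepOn T Ψ) :
    P ({ω | Φ (fun x => e x ω)} ∩ {ω | Ψ (fun x => e x ω)}) =
      P {ω | Φ (fun x => e x ω)} * P {ω | Ψ (fun x => e x ω)} := by
  rw [preim hΦ e, preim hΨ e]
  exact (he.indepFun_finset S T hST hm).measure_inter_preimage_eq_mul _ _
    (Set.to_countable _).measurableSet (Set.to_countable _).measurableSet

/-- Conditioning on the variables in `S`. -/
lemma cond_le [IsProbabilityMeasure P] {e : ℕ → Ω → ℕ} (he : iIndepFun e P)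
    (hm : ∀ x, Measurable (e x)) (S : Finset ℕ) {x x' : ℕ} (hx : x ∉ S) (hx' : x' ∉ S)
    (α β : (ℕ → ℕ) → ℕ) (hα : DepOn S α) (hβ : DepOn S β) (p : ENNReal)
    (hp : ∀ a b, P {ω | e x ω = a ∧ e x' ω = b} ≤ p) :
    P {ω | e x ω = α (fun y => e y ω) ∧ e x' ω = β (fun y => e y ω)} ≤ p := by
  have hsub : {ω | e x ω = α (fun y => e y ω) ∧ e x' ω = β (fun y => e y ω)} ⊆
      ⋃ a : S → ℕ, ({ω | (fun i : S => e i ω) = a} ∩
        {ω | e x ω = α (ext S a) ∧ e x' ω = β (ext S a)}) := by
    intro ω hω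
    rw [Set.mem_iUnion]
    refine ⟨fun i => e i ω, rfl, ?_⟩
    have h1 : α (ext S (fun i : S => e i ω)) = α (fun y => e y ω) :=
      hα _ _ (fun y hy => ext_eq S (fun y => e y ω) hy)
    have h2 : β (ext S (fun i : S => e i ω)) = β (fun y => e y ω) :=
      hβ _ _ (fun y hy => ext_eq S (fun y => e y ω) hy)
    simp only [Set.mem_setOf_eq, h1, h2]
    exact hω
  have hdisj : Disjoint S ({x, x'} : Finset ℕ) := by
    rw [Finset.disjoint_insert_right, Finset.disjoint_singleton_right]
    exact ⟨hx, hx'⟩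
  have hterm : ∀ a : S → ℕ, P ({ω | (fun i : S => e i ω) = a} ∩
        {ω | e x ω = α (ext S a) ∧ e x' ω = β (ext S a)}) ≤
      P ((fun ω (i : S) => e i ω) ⁻¹' {a}) * p := by
    intro a
    have h := indepEv (P := P) he hm hdisj (Φ := fun f => (fun i : S => f i) = a)
      (Ψ := fun f => f x = α (ext S a) ∧ f x' = β (ext S a))
      (fun f g hfg => by
        have : (fun i : S => f i) = (fun i : S => g i) := funext fun i => hfg i i.2
        beta_reduce
        rw [this])
      (fun f g hfg => by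
        beta_reduce
        rw [hfg x (by simp), hfg x' (by simp)])
    rw [h]
    exact mul_le_mul' (le_of_eq rfl) (hp _ _)
  calc P {ω | e x ω = α (fun y => e y ω) ∧ e x' ω = β (fun y => e y ω)}
      ≤ P (⋃ a : S → ℕ, ({ω | (fun i : S => e i ω) = a} ∩
        {ω | e x ω = α (ext S a) ∧ e x' ω = β (ext S a)})) := measure_mono hsub
    _ ≤ ∑' a : S → ℕ, P ({ω | (fun i : S => e i ω) = a} ∩
        {ω | e x ω = α (ext S a) ∧ e x' ω = β (ext S a)}) := measure_iUnion_le _
    _ ≤ ∑' a : S → ℕ, P ((fun ω (i : S) => e i ω) ⁻¹' {a}) * p := ENNReal.tsum_le_tsum hterm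
    _ = (∑' a : S → ℕ, P ((fun ω (i : S) => e i ω) ⁻¹' {a})) * p := ENNReal.tsum_mul_right
    _ ≤ 1 * p := by
        refine mul_le_mul' ?_ le_rfl
        have h := tsum_measure_preimage_singleton (μ := P) (s := (Set.univ : Set (S → ℕ)))
          Set.countable_univ (f := fun ω (i : S) => e i ω)
          (fun a _ => meas_tuple S hm (measurableSet_singleton a))
        rw [tsum_univ (fun a : S → ℕ => P ((fun ω (i : S) => e i ω) ⁻¹' {a}))] at h
        rw [h]
        exact prob_le_one
    _ = p := one_mul p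

/-- Independent natural numbers `e x` with the uniform distribution on `{0, ..., r x}`. -/
structure Unif (P : Measure Ω) (e : ℕ → Ω → ℕ) (r : ℕ → ℕ) : Prop where
  meas : ∀ x, Measurable (e x)
  indep : iIndepFun e P
  law : ∀ x j, j ≤ r x → P {ω | e x ω = j} = ENNReal.ofReal (1 / (r x + 1))

/-- The law for the other values. -/
lemma Unif.law' [IsProbabilityMeasure P] {e : ℕ → Ω → ℕ} {r : ℕ → ℕ} (h : Unif P e r) (x j : ℕ) :
    P {ω | e x ω = j} ≤ ENNReal.ofReal (1 / (r x + 1)) := by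
  by_cases hj : j ≤ r x
  · exact le_of_eq (h.law x j hj)
  · have hr : (0 : ℝ) < r x + 1 := by positivity
    have h1 : P (⋃ i ∈ Finset.range (r x + 1), {ω | e x ω = i}) = 1 := by
      rw [measure_biUnion_finset]
      · rw [Finset.sum_congr rfl (fun i hi => h.law x i (Nat.lt_succ_iff.1 (Finset.mem_range.1 hi)))]
        rw [Finset.sum_const, Finset.card_range, nsmul_eq_mul, ← ENNReal.ofReal_natCast,
          ← ENNReal.ofReal_mul (by positivity)]
        push_cast
        rw [mul_one_div_cancel (ne_of_gt hr), ENNReal.ofReal_one]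
      · intro a _ b _ hab
        rw [Function.onFun, Set.disjoint_left]
        intro ω ha hb
        exact hab (ha.symm.trans hb)
      · intro i _
        exact h.meas x (measurableSet_singleton i)
    have h2 : P {ω | e x ω = j} ≤ P (⋃ i ∈ Finset.range (r x + 1), {ω | e x ω = i})ᶜ := by
      apply measure_mono
      intro ω hω
      simp only [Set.mem_compl_iff, Set.mem_iUnion, not_exists, Finset.mem_range]
      intro i hi hi'
      have : i = j := hi'.symm.trans hω
      omega
    have hms : MeasurableSet (⋃ i ∈ Finset.range (r x + 1), {ω | e x ω = i}) :=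
      Finset.measurableSet_biUnion _ (fun i _ => h.meas x (measurableSet_singleton i))
    rw [prob_compl_eq_one_sub hms, h1, tsub_self] at h2
    exact h2.trans zero_le

/-- The joint law of two of the variables. -/
lemma Unif.pair [IsProbabilityMeasure P] {e : ℕ → Ω → ℕ} {r : ℕ → ℕ} (h : Unif P e r) {x x' : ℕ}
    (hx : x ≠ x') {R : ℝ} (hR : 0 < R) (h1 : R ≤ r x + 1) (h2 : R ≤ r x' + 1) (a b : ℕ) :
    P {ω | e x ω = a ∧ e x' ω = b} ≤ ENNReal.ofReal (1 / R ^ 2) := by
  have h3 := indepEv (P := P) h.indep h.meas (S := {x}) (T := {x'}) (by simpa using hx)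
    (Φ := fun f => f x = a) (Ψ := fun f => f x' = b)
    (fun f g hfg => by beta_reduce; rw [hfg x (by simp)])
    (fun f g hfg => by beta_reduce; rw [hfg x' (by simp)])
  have h4 : {ω | e x ω = a ∧ e x' ω = b} = {ω | e x ω = a} ∩ {ω | e x' ω = b} := rfl
  rw [h4, h3]
  refine (mul_le_mul' (h.law' x a) (h.law' x' b)).trans ?_
  rw [← ENNReal.ofReal_mul (by positivity)]
  apply ENNReal.ofReal_le_ofReal
  rw [div_mul_div_comm, one_mul]
  apply one_div_le_one_div_of_le (by positivity)
  nlinarith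

/-- Two different sums are rarely both equal to given numbers. -/
lemma Unif.two [IsProbabilityMeasure P] {e : ℕ → Ω → ℕ} {r : ℕ → ℕ} (h : Unif P e r) {u : ℕ}
    (y y' : Fin u → ℕ) (hy : ∀ i j, i ≠ j → y i ≠ y j) (hy' : ∀ i j, i ≠ j → y' i ≠ y' j)
    (hyy : ∀ i j, i ≠ j → y i ≠ y' j) (i : Fin u) (hi : y i ≠ y' i) {R : ℝ} (hR : 0 < R)
    (h1 : R ≤ r (y i) + 1) (h2 : R ≤ r (y' i) + 1) (D D' : ℕ) :
    P {ω | ∑ j, e (y j) ω = D ∧ ∑ j, e (y' j) ω = D'} ≤ ENNReal.ofReal (1 / R ^ 2) := by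
  classical
  set S : Finset ℕ := (Finset.univ.erase i).image y ∪ (Finset.univ.erase i).image y' with hS
  have hmem : ∀ j, j ≠ i → y j ∈ S := fun j hj => Finset.mem_union_left _
    (Finset.mem_image_of_mem _ (Finset.mem_erase.2 ⟨hj, Finset.mem_univ _⟩))
  have hmem' : ∀ j, j ≠ i → y' j ∈ S := fun j hj => Finset.mem_union_right _
    (Finset.mem_image_of_mem _ (Finset.mem_erase.2 ⟨hj, Finset.mem_univ _⟩))
  have hyS : y i ∉ S := by
    rw [hS, Finset.mem_union, Finset.mem_image, Finset.mem_image]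
    rintro (⟨j, hj, hj'⟩ | ⟨j, hj, hj'⟩)
    · exact hy j i (Finset.ne_of_mem_erase hj) hj'
    · exact hyy i j (Finset.ne_of_mem_erase hj).symm hj'.symm
  have hyS' : y' i ∉ S := by
    rw [hS, Finset.mem_union, Finset.mem_image, Finset.mem_image]
    rintro (⟨j, hj, hj'⟩ | ⟨j, hj, hj'⟩)
    · exact hyy j i (Finset.ne_of_mem_erase hj) hj'
    · exact hy' j i (Finset.ne_of_mem_erase hj) hj'
  refine le_trans (measure_mono ?_) (cond_le (P := P) h.indep h.meas S hyS hyS'
    (fun f => D - ∑ j ∈ Finset.univ.erase i, f (y j))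
    (fun f => D' - ∑ j ∈ Finset.univ.erase i, f (y' j))
    (fun f g hfg => by
      beta_reduce
      rw [Finset.sum_congr rfl (fun j hj => hfg (y j) (hmem j (Finset.ne_of_mem_erase hj)))])
    (fun f g hfg => by
      beta_reduce
      rw [Finset.sum_congr rfl (fun j hj => hfg (y' j) (hmem' j (Finset.ne_of_mem_erase hj)))])
    _ (h.pair hi hR h1 h2))
  intro ω hω
  obtain ⟨h3, h4⟩ := hω
  rw [← Finset.add_sum_erase _ _ (Finset.mem_univ i)] at h3 h4
  constructor
  · change e (y i) ω = D - ∑ j ∈ Finset.univ.erase i, e (y j) ω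
    omega
  · change e (y' i) ω = D' - ∑ j ∈ Finset.univ.erase i, e (y' j) ω
    omega

/-- Lower bound for the probability that a sum is equal to a given number. -/
lemma Unif.one [IsProbabilityMeasure P] {e : ℕ → Ω → ℕ} {r : ℕ → ℕ} (h : Unif P e r) {w : ℕ}
    (y : Fin (w + 1) → ℕ) (hy : Function.Injective y) {H D : ℕ} (hH : ∀ i, H ≤ r (y i))
    (hD : w * H ≤ D) (hD' : D ≤ r (y 0)) {R : ℝ} (hR : ∀ i, (r (y i) + 1 : ℝ) ≤ R) :
    ENNReal.ofReal ((H + 1) ^ w / R ^ (w + 1)) ≤ P {ω | ∑ j, e (y j) ω = D} := by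
  classical
  have hR0 : 0 < R := lt_of_lt_of_le (by positivity) (hR 0)
  set A : (Fin w → Fin (H + 1)) → Set Ω := fun v =>
    ⋂ i ∈ (Finset.univ : Finset (Fin (w + 1))), (e (y i)) ⁻¹'
      {(Fin.cons (D - ∑ j, (v j : ℕ)) (fun j => (v j : ℕ)) : Fin (w + 1) → ℕ) i} with hA
  have hvs : ∀ v : Fin w → Fin (H + 1), ∑ j, (v j : ℕ) ≤ D := by
    intro v
    refine le_trans ?_ hD
    calc ∑ j, (v j : ℕ) ≤ ∑ _j : Fin w, H := Finset.sum_le_sum fun j _ => Nat.lt_succ_iff.1 (v j).2
      _ = w * H := by simp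
  have hAP : ∀ v, ENNReal.ofReal (1 / R ^ (w + 1)) ≤ P (A v) := by
    intro v
    have hind : iIndepFun (fun i => e (y i)) P := h.indep.precomp hy
    rw [hA]
    beta_reduce
    rw [hind.measure_inter_preimage_eq_mul _ (fun i _ => measurableSet_singleton _)]
    have h3 : ∀ i ∈ (Finset.univ : Finset (Fin (w + 1))), ENNReal.ofReal (1 / R) ≤
        P ((e (y i)) ⁻¹'
      {(Fin.cons (D - ∑ j, (v j : ℕ)) (fun j => (v j : ℕ)) : Fin (w + 1) → ℕ) i}) := by
      intro i _
      have h4 : (Fin.cons (D - ∑ j, (v j : ℕ)) (fun j => (v j : ℕ)) : Fin (w + 1) → ℕ) i ≤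
          r (y i) := by
        refine Fin.cases ?_ (fun j => ?_) i
        · rw [Fin.cons_zero]
          omega
        · rw [Fin.cons_succ]
          exact (Nat.lt_succ_iff.1 (v j).2).trans (hH _)
      have h5 := h.law (y i) _ h4
      change _ ≤ P {ω | e (y i) ω = _}
      rw [h5]
      apply ENNReal.ofReal_le_ofReal
      exact one_div_le_one_div_of_le (by positivity) (hR i)
    calc ENNReal.ofReal (1 / R ^ (w + 1)) = ∏ _i : Fin (w + 1), ENNReal.ofReal (1 / R) := by
          rw [Finset.prod_const, Finset.card_univ, Fintype.card_fin, ← ENNReal.ofReal_pow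
            (by positivity)]
          congr 1
          rw [div_pow, one_pow]
      _ ≤ _ := Finset.prod_le_prod' h3
  have hsub : (⋃ v ∈ (Finset.univ : Finset (Fin w → Fin (H + 1))), A v) ⊆
      {ω | ∑ j, e (y j) ω = D} := by
    intro ω hω
    simp only [Finset.mem_univ, Set.iUnion_true, Set.mem_iUnion] at hω
    obtain ⟨v, hv⟩ := hω
    have h3 : ∀ i, e (y i) ω =
        (Fin.cons (D - ∑ j, (v j : ℕ)) (fun j => (v j : ℕ)) : Fin (w + 1) → ℕ) i := by
      intro i
      have h4 := Set.mem_iInter₂.1 hv i (Finset.mem_univ _)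
      exact h4
    change ∑ j, e (y j) ω = D
    rw [Finset.sum_congr rfl (fun j _ => h3 j), Fin.sum_univ_succ, Fin.cons_zero]
    simp only [Fin.cons_succ]
    have := hvs v
    omega
  refine le_trans ?_ (measure_mono hsub)
  rw [measure_biUnion_finset]
  · calc ENNReal.ofReal ((H + 1) ^ w / R ^ (w + 1))
        = ∑ _v : Fin w → Fin (H + 1), ENNReal.ofReal (1 / R ^ (w + 1)) := by
          rw [Finset.sum_const, Finset.card_univ, Fintype.card_fun, Fintype.card_fin,
            Fintype.card_fin, nsmul_eq_mul, ← ENNReal.ofReal_natCast, ← ENNReal.ofReal_mul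
            (by positivity)]
          congr 1
          push_cast
          rw [mul_one_div]
      _ ≤ _ := Finset.sum_le_sum fun v _ => hAP v
  · intro v _ v' _ hvv
    rw [Function.onFun, Set.disjoint_left]
    intro ω h3 h4
    apply hvv
    funext j
    have h5 := Set.mem_iInter₂.1 h3 j.succ (Finset.mem_univ _)
    have h6 := Set.mem_iInter₂.1 h4 j.succ (Finset.mem_univ _)
    simp only [Set.mem_preimage, Set.mem_singleton_iff, Fin.cons_succ] at h5 h6
    exact Fin.ext (h5.symm.trans h6)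
  · intro v _
    exact Finset.measurableSet_biInter _ fun i _ => h.meas _ (measurableSet_singleton _)

/-- Bonferroni inequality. -/
lemma bonf [IsProbabilityMeasure P] {ι : Type} (T : Finset ι) (A : ι → Set Ω)
    (hA : ∀ t, MeasurableSet (A t)) {a q : ℝ} (hq : 0 ≤ q) (h1 : ∀ t ∈ T, a ≤ P.real (A t))
    (h2 : ∀ t ∈ T, ∀ t' ∈ T, t ≠ t' → P.real (A t ∩ A t') ≤ q) :
    T.card * a - T.card ^ 2 * q ≤ P.real (⋃ t ∈ T, A t) := by
  classical
  induction T using Finset.induction with
  | empty => simp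
  | insert t T ht ih =>
    have h3 := ih (fun s hs => h1 s (Finset.mem_insert_of_mem hs))
      (fun s hs s' hs' => h2 s (Finset.mem_insert_of_mem hs) s' (Finset.mem_insert_of_mem hs'))
    have h4 := h1 t (Finset.mem_insert_self t T)
    have h5 : P.real (A t ∩ ⋃ s ∈ T, A s) ≤ T.card * q := by
      rw [Set.inter_iUnion₂]
      refine (measureReal_biUnion_finset_le T (fun s => A t ∩ A s)).trans ?_
      calc ∑ s ∈ T, P.real (A t ∩ A s) ≤ ∑ _s ∈ T, q := Finset.sum_le_sum fun s hs =>
            h2 t (Finset.mem_insert_self t T) s (Finset.mem_insert_of_mem hs)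
              (fun h => ht (h ▸ hs))
        _ = T.card * q := by rw [Finset.sum_const, nsmul_eq_mul]
    have h6 : P.real (A t ∪ ⋃ s ∈ T, A s) + P.real (A t ∩ ⋃ s ∈ T, A s) =
        P.real (A t) + P.real (⋃ s ∈ T, A s) :=
      measureReal_union_add_inter (Finset.measurableSet_biUnion _ fun s _ => hA s)
        (measure_ne_top _ _) (measure_ne_top _ _)
    rw [Finset.set_biUnion_insert, Finset.card_insert_of_notMem ht]
    push_cast
    nlinarith

/-- Independent blocks. -/
lemma blocks [IsProbabilityMeasure P] {e : ℕ → Ω → ℕ} (he : iIndepFun e P)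
    (hm : ∀ x, Measurable (e x)) (S : ℕ → Finset ℕ) (Φ : ℕ → (ℕ → ℕ) → Prop) (B : ℕ)
    (hdep : ∀ b < B, DepOn (S b) (Φ b))
    (hdisj : ∀ b < B, ∀ b' < B, b ≠ b' → Disjoint (S b) (S b')) {ρ : ℝ}
    (h : ∀ b < B, P.real {ω | Φ b (fun x => e x ω)} ≤ ρ) :
    P.real {ω | ∀ b < B, Φ b (fun x => e x ω)} ≤ ρ ^ B := by
  classical
  induction B with
  | zero =>
    rw [pow_zero]
    exact measureReal_le_one
  | succ B ih =>
    have h1 := ih (fun b hb => hdep b (by omega)) (fun b hb b' hb' => hdisj b (by omega) b' (by omega))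
      (fun b hb => h b (by omega))
    have h2 := h B (by omega)
    have h3 := indepEv (P := P) he hm (S := (Finset.range B).biUnion S) (T := S B)
      (by
        rw [Finset.disjoint_biUnion_left]
        intro b hb
        have := Finset.mem_range.1 hb
        exact hdisj b (by omega) B (by omega) (by omega))
      (Φ := fun f => ∀ b < B, Φ b f) (Ψ := Φ B)
      (fun f g hfg => by
        beta_reduce
        apply propext
        refine forall₂_congr fun b hb => ?_
        rw [hdep b (by omega) f g (fun x hx => hfg x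
          (Finset.mem_biUnion.2 ⟨b, Finset.mem_range.2 hb, hx⟩))])
      (hdep B (by omega))
    have h4 : {ω | ∀ b < B + 1, Φ b (fun x => e x ω)} =
        {ω | ∀ b < B, Φ b (fun x => e x ω)} ∩ {ω | Φ B (fun x => e x ω)} := by
      ext ω
      simp only [Set.mem_inter_iff, Set.mem_setOf_eq]
      constructor
      · intro h5
        exact ⟨fun b hb => h5 b (by omega), h5 B (by omega)⟩
      · rintro ⟨h5, h6⟩ b hb
        rcases Nat.lt_succ_iff_lt_or_eq.1 hb with h7 | h7
        · exact h5 b h7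
        · rw [h7]
          exact h6
    have h5 : P.real {ω | ∀ b < B + 1, Φ b (fun x => e x ω)} =
        P.real {ω | ∀ b < B, Φ b (fun x => e x ω)} * P.real {ω | Φ B (fun x => e x ω)} := by
      rw [h4, measureReal_def, h3, ENNReal.toReal_mul]
      rfl
    rw [h5, pow_succ]
    exact mul_le_mul h1 h2 measureReal_nonneg (measureReal_nonneg.trans h1)

/-- **The core**: it is unlikely that none of the sums is equal to the prescribed number. -/
theorem core [IsProbabilityMeasure P] {e : ℕ → Ω → ℕ} {r : ℕ → ℕ} (h : Unif P e r) {w B Q : ℕ}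
    (g : ℕ → Fin (w + 1) → Fin Q → ℕ)
    (hg : ∀ b < B, ∀ b' < B, ∀ i i' s s', g b i s = g b' i' s' → b = b' ∧ i = i' ∧ s = s')
    {R1 R2 : ℝ} (hR1 : 0 < R1) (h1 : ∀ b < B, ∀ i s, R1 ≤ (r (g b i s) : ℝ) + 1)
    (h2 : ∀ b < B, ∀ i s, (r (g b i s) : ℝ) + 1 ≤ R2)
    {H : ℕ} (hH : ∀ b < B, ∀ i s, H ≤ r (g b i s)) (D : (Fin (w + 1) → ℕ) → ℕ)
    (hD : ∀ b < B, ∀ s : Fin (w + 1) → Fin Q, w * H ≤ D (fun i => g b i (s i)) ∧
      D (fun i => g b i (s i)) ≤ r (g b 0 (s 0)))
    {n : ℕ} (hn : n ≤ Q ^ (w + 1)) (hR2 : 0 < R2)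
    (hn2 : (n : ℝ) ≤ ((H + 1) ^ w / R2 ^ (w + 1)) * R1 ^ 2 / 2) :
    P.real {ω | ∀ b < B, ∀ s : Fin (w + 1) → Fin Q,
      ∑ i, e (g b i (s i)) ω ≠ D (fun i => g b i (s i))} ≤
      (1 - n * ((H + 1) ^ w / R2 ^ (w + 1)) / 2) ^ B := by
  classical
  set a : ℝ := (H + 1) ^ w / R2 ^ (w + 1) with ha
  have ha0 : 0 ≤ a := by positivity
  refine blocks (P := P) h.indep h.meas
    (fun b => Finset.univ.image (fun p : Fin (w + 1) × Fin Q => g b p.1 p.2))
    (fun b f => ∀ s : Fin (w + 1) → Fin Q, ∑ i, f (g b i (s i)) ≠ D (fun i => g b i (s i))) B ?_ ?_ ?_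
  · intro b _ f f' hff
    beta_reduce
    apply propext
    refine forall_congr' fun s => ?_
    rw [Finset.sum_congr rfl (fun i _ => hff (g b i (s i))
      (Finset.mem_image.2 ⟨(i, s i), Finset.mem_univ _, rfl⟩))]
  · intro b hb b' hb' hbb
    rw [Finset.disjoint_left]
    intro x hx hx'
    obtain ⟨p, -, hp⟩ := Finset.mem_image.1 hx
    obtain ⟨p', -, hp'⟩ := Finset.mem_image.1 hx'
    exact hbb (hg b hb b' hb' _ _ _ _ (hp.trans hp'.symm)).1
  · intro b hb
    beta_reduce
    have hcard : n ≤ (Finset.univ : Finset (Fin (w + 1) → Fin Q)).card := by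
      rw [Finset.card_univ, Fintype.card_fun, Fintype.card_fin, Fintype.card_fin]
      exact hn
    obtain ⟨T, -, hT⟩ := Finset.exists_subset_card_eq hcard
    set A : (Fin (w + 1) → Fin Q) → Set Ω := fun s =>
      {ω | ∑ i, e (g b i (s i)) ω = D (fun i => g b i (s i))} with hA
    have hAm : ∀ s, MeasurableSet (A s) := by
      intro s
      have h3 : Measurable (fun ω => ∑ i, e (g b i (s i)) ω) :=
        Finset.measurable_fun_sum _ fun i _ => h.meas _
      exact h3 (measurableSet_singleton _)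
    have hinj : ∀ s : Fin (w + 1) → Fin Q, ∀ i j, i ≠ j → g b i (s i) ≠ g b j (s j) :=
      fun s i j hij h3 => hij (hg b hb b hb _ _ _ _ h3).2.1
    have h3 := bonf (P := P) T A hAm (a := a) (q := 1 / R1 ^ 2) (by positivity)
      (fun s _ => by
        have h4 := h.one (fun i => g b i (s i)) (fun i j hij => by
          by_contra hne
          exact hinj s i j hne hij) (fun i => hH b hb i (s i)) (hD b hb s).1 (hD b hb s).2
          (fun i => h2 b hb i (s i))
        rw [measureReal_def]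
        exact (ENNReal.ofReal_le_iff_le_toReal (measure_ne_top _ _)).1 h4)
      (fun s _ s' _ hss => by
        obtain ⟨i, hi⟩ : ∃ i, s i ≠ s' i := by
          by_contra hcon
          push Not at hcon
          exact hss (funext hcon)
        have h4 := h.two (fun i => g b i (s i)) (fun i => g b i (s' i)) (hinj s) (hinj s')
          (fun i j hij h3 => hij (hg b hb b hb _ _ _ _ h3).2.1) i
          (fun h3 => hi (hg b hb b hb _ _ _ _ h3).2.2) hR1 (h1 b hb i (s i)) (h1 b hb i (s' i))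
          (D (fun i => g b i (s i))) (D (fun i => g b i (s' i)))
        rw [measureReal_def]
        exact ENNReal.toReal_le_of_le_ofReal (by positivity) h4)
    rw [hT] at h3
    have h4 : (n : ℝ) ^ 2 * (1 / R1 ^ 2) ≤ n * a / 2 := by
      have h5 : (n : ℝ) * (1 / R1 ^ 2) ≤ a / 2 := by
        rw [mul_one_div, div_le_iff₀ (by positivity)]
        linarith
      have h6 : (0 : ℝ) ≤ n := by positivity
      nlinarith
    have h5 : {ω | ∀ s : Fin (w + 1) → Fin Q, ∑ i, e (g b i (s i)) ω ≠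
        D (fun i => g b i (s i))} ⊆ (⋃ s ∈ T, A s)ᶜ := by
      intro ω hω
      simp only [Set.mem_compl_iff, Set.mem_iUnion, not_exists]
      intro s _ h6
      exact hω s h6
    have h6 : P.real (⋃ s ∈ T, A s)ᶜ = 1 - P.real (⋃ s ∈ T, A s) :=
      probReal_compl_eq_one_sub (Finset.measurableSet_biUnion _ fun s _ => hAm s)
    have h7 := measureReal_mono (μ := P) h5 (measure_ne_top _ _)
    rw [h6] at h7
    linarith

end Pool.Agent.Q241.PW
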