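import Pool.Agent.Q241.PW.Core

/-!
# Existence of the random perturbations
-/

set_option autoImplicit false

namespace Pool.Agent.Q241.PW

open MeasureTheory ProbabilityTheory

/-- Independent uniform random variables exist. -/
theorem exists_unif (r : ℕ → ℕ) : ∃ P : Measure (ℕ → ℕ), IsProbabilityMeasure P ∧
    Unif P (fun x f => f x) r := by
  classical
  have hne : ∀ x, (Finset.range (r x + 1)).Nonempty := fun x => ⟨0, by simp⟩
  let μ : ℕ → Measure ℕ := fun x => (PMF.uniformOfFinset (Finset.range (r x + 1)) (hne x)).toMeasure
  have hμ : ∀ x, IsProbabilityMeasure (μ x) := fun x => PMF.toMeasure.isProbabilityMeasure _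
  refine ⟨Measure.infinitePi μ, inferInstance, fun x => measurable_pi_apply x, ?_, fun x j hj => ?_⟩
  · exact iIndepFun_infinitePi (X := fun _ a => a) (fun _ => measurable_id)
  · have h1 : {f : ℕ → ℕ | f x = j} = (fun f : ℕ → ℕ => f x) ⁻¹' ({j} : Set ℕ) := rfl
    rw [h1, (measurePreserving_eval_infinitePi μ x).measure_preimage
      (measurableSet_singleton j).nullMeasurableSet]
    show (PMF.uniformOfFinset (Finset.range (r x + 1)) (hne x)).toMeasure {j} = _
    rw [PMF.toMeasure_apply_singleton _ _ (measurableSet_singleton j),
      PMF.uniformOfFinset_apply_of_mem _ (by rw [Finset.mem_range]; omega), Finset.card_range,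
      one_div, ENNReal.ofReal_inv_of_pos (by positivity)]
    congr 1
    rw [← ENNReal.ofReal_natCast]
    congr 1
    push_cast
    ring

end Pool.Agent.Q241.PW
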