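import Pool.Agent.Q241.PW.Core

/-!
# Greedy approximation by sums of powers
-/

set_option autoImplicit false

namespace Pool.Agent.Q241.PW

open Finset

open scoped Classical in
/-- For all large `x` the set `Z` has an element in `[x - x^(1-κ), x]` and at least `c x^l` elements in
`(x/2, x]`. -/
def Regular (Z : Set ℕ) (κ l : ℝ) : Prop :=
  ∃ c x₀ : ℝ, 0 < c ∧ ∀ x : ℝ, x₀ ≤ x → (∃ z ∈ Z, x - x ^ (1 - κ) ≤ (z : ℝ) ∧ (z : ℝ) ≤ x) ∧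
    c * x ^ l ≤ (((Icc 1 ⌊x⌋₊).filter (fun z : ℕ => z ∈ Z ∧ x / 2 < (z : ℝ))).card : ℝ)

/-- One step of the greedy algorithm. -/
lemma greedy_step {Z : Set ℕ} {κ x₀ : ℝ} (hκ : 0 < κ) (hκ1 : κ ≤ 1) {k : ℕ} (hk : 1 ≤ k)
    (hZ : ∀ x : ℝ, x₀ ≤ x → ∃ z ∈ Z, x - x ^ (1 - κ) ≤ (z : ℝ) ∧ (z : ℝ) ≤ x) :
    ∃ W : ℝ, 1 ≤ W ∧ ∀ M : ℝ, W ≤ M → ∃ z ∈ Z, (z : ℝ) ^ k ≤ M ∧
      M - (z : ℝ) ^ k ≤ k * M ^ (1 - κ / k) := by
  refine ⟨(max x₀ 1) ^ k, one_le_pow₀ (le_max_right _ _), fun M hM => ?_⟩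
  have hk0 : (0 : ℝ) < k := by exact_mod_cast hk
  have hM1 : 1 ≤ M := (one_le_pow₀ (le_max_right _ _)).trans hM
  have hM0 : 0 < M := by linarith
  set x : ℝ := M ^ (1 / (k : ℝ)) with hx
  have hx0 : 0 < x := Real.rpow_pos_of_pos hM0 _
  have hxk : x ^ k = M := by
    rw [hx, ← Real.rpow_natCast, ← Real.rpow_mul hM0.le, one_div_mul_cancel hk0.ne', Real.rpow_one]
  have hxge : max x₀ 1 ≤ x := by
    by_contra hcon
    push Not at hcon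
    have h1 : x ^ k < (max x₀ 1) ^ k := pow_lt_pow_left₀ hcon hx0.le (by omega)
    rw [hxk] at h1
    linarith
  obtain ⟨z, hzZ, hz1, hz2⟩ := hZ x ((le_max_left _ _).trans hxge)
  have hz0 : (0 : ℝ) ≤ z := by positivity
  have h1 : (z : ℝ) ^ k ≤ x ^ k := pow_le_pow_left₀ hz0 hz2 k
  refine ⟨z, hzZ, by rwa [hxk] at h1, ?_⟩
  have h2 : x ^ k - (z : ℝ) ^ k ≤ (x - z) * (k * x ^ (k - 1)) := by
    have h3 := abs_pow_sub_pow_le x (z : ℝ) k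
    rw [abs_of_nonneg (by linarith), abs_of_nonneg (by linarith : 0 ≤ x - z), abs_of_pos hx0,
      abs_of_nonneg hz0, max_eq_left hz2] at h3
    linarith
  have h3 : (x - z) * (k * x ^ (k - 1)) ≤ x ^ (1 - κ) * (k * x ^ (k - 1)) :=
    mul_le_mul_of_nonneg_right (by linarith) (by positivity)
  have h4 : x ^ (1 - κ) * (k * x ^ (k - 1)) = k * M ^ (1 - κ / k) := by
    have h5 : x ^ (k - 1) = x ^ ((k : ℝ) - 1) := by
      rw [← Real.rpow_natCast]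
      congr 1
      push_cast [Nat.cast_sub hk]
      ring
    have h6 : M ^ (1 - κ / k) = x ^ ((k : ℝ) - κ) := by
      rw [hx, ← Real.rpow_mul hM0.le]
      congr 1
      field_simp
    rw [h5, h6, mul_left_comm, ← Real.rpow_add hx0]
    congr 2
    ring
  rw [hxk] at h2
  linarith

/-- The greedy algorithm. -/
lemma greedy {Z : Set ℕ} {κ x₀ : ℝ} (hκ : 0 < κ) (hκ1 : κ ≤ 1) {k : ℕ} (hk : 1 ≤ k)
    (hZ : ∀ x : ℝ, x₀ ≤ x → ∃ z ∈ Z, x - x ^ (1 - κ) ≤ (z : ℝ) ∧ (z : ℝ) ≤ x) (j : ℕ) :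
    ∃ W C : ℝ, 1 ≤ W ∧ 0 < C ∧ ∀ M : ℝ, W ≤ M → ∃ z : Fin j → ℕ, (∀ i, z i ∈ Z) ∧
      ∑ i, (z i : ℝ) ^ k ≤ M ∧ M - ∑ i, (z i : ℝ) ^ k ≤ C * M ^ ((1 - κ / k) ^ j) := by
  have hk0 : (0 : ℝ) < k := by exact_mod_cast hk
  have hk1 : (1 : ℝ) ≤ k := by exact_mod_cast hk
  have hρ0 : 0 ≤ 1 - κ / k := by
    rw [sub_nonneg, div_le_one hk0]
    linarith
  obtain ⟨W₀, hW₀, hstep⟩ := greedy_step hκ hκ1 hk hZ
  induction j with
  | zero =>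
    refine ⟨1, 1, le_refl _, one_pos, fun M hM => ⟨fun i => i.elim0, fun i => i.elim0, ?_, ?_⟩⟩
    · simp
      linarith
    · simp
  | succ j ih =>
    obtain ⟨W, C, hW, hC, hih⟩ := ih
    refine ⟨W + W₀, C * (W + k) ^ ((1 - κ / k) ^ j), by linarith,
      mul_pos hC (Real.rpow_pos_of_pos (by linarith) _), fun M hM => ?_⟩
    have hM1 : 1 ≤ M := by linarith
    have hM0 : 0 < M := by linarith
    obtain ⟨z, hzZ, hz1, hz2⟩ := hstep (M - W) (by linarith)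
    have hMρ : (M - W) ^ (1 - κ / k) ≤ M ^ (1 - κ / k) :=
      Real.rpow_le_rpow (by linarith) (by linarith) hρ0
    have hMρ1 : 1 ≤ M ^ (1 - κ / k) := Real.one_le_rpow hM1 hρ0
    have h1 : M - (z : ℝ) ^ k ≤ (W + k) * M ^ (1 - κ / k) := by nlinarith
    obtain ⟨z', hz'Z, hz'1, hz'2⟩ := hih (M - (z : ℝ) ^ k) (by linarith)
    refine ⟨Fin.cons z z', ?_, ?_, ?_⟩
    · intro i
      refine Fin.cases ?_ (fun i => ?_) i
      · rw [Fin.cons_zero]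
        exact hzZ
      · rw [Fin.cons_succ]
        exact hz'Z i
    · rw [Fin.sum_univ_succ, Fin.cons_zero]
      simp only [Fin.cons_succ]
      linarith
    · rw [Fin.sum_univ_succ, Fin.cons_zero]
      simp only [Fin.cons_succ]
      have h2 : (M - (z : ℝ) ^ k) ^ ((1 - κ / k) ^ j) ≤
          (W + k) ^ ((1 - κ / k) ^ j) * M ^ ((1 - κ / k) ^ (j + 1)) := by
        calc (M - (z : ℝ) ^ k) ^ ((1 - κ / k) ^ j)
            ≤ ((W + k) * M ^ (1 - κ / k)) ^ ((1 - κ / k) ^ j) :=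
              Real.rpow_le_rpow (by linarith) h1 (pow_nonneg hρ0 _)
          _ = (W + k) ^ ((1 - κ / k) ^ j) * M ^ ((1 - κ / k) ^ (j + 1)) := by
              rw [Real.mul_rpow (by linarith) (by positivity), ← Real.rpow_mul hM0.le, pow_succ']
      have h3 := mul_le_mul_of_nonneg_left h2 hC.le
      calc M - ((z : ℝ) ^ k + ∑ i, (z' i : ℝ) ^ k) = (M - (z : ℝ) ^ k) - ∑ i, (z' i : ℝ) ^ k := by ring
        _ ≤ _ := hz'2
        _ ≤ _ := h3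
        _ = _ := by ring

end Pool.Agent.Q241.PW
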