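import Pool.Agent.Q241.PW.Step

/-!
# Almost surely all large numbers are sums of perturbed powers
-/

set_option autoImplicit false
set_option linter.deprecated false

namespace Pool.Agent.Q241.PW

open Finset MeasureTheory ProbabilityTheory Filter Topology

lemma ev_rpow {s : ℝ} (hs : 0 < s) (K : ℝ) : ∀ᶠ Y : ℝ in atTop, K ≤ Y ^ s :=
  (tendsto_rpow_atTop hs).eventually_ge_atTop K

/-- The final comparison. -/
lemma ev_log {p c' δ A B : ℝ} (hp : 0 < p) (hc : 0 < c') (hδ : 0 < δ) :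
    ∀ᶠ Y : ℝ in atTop, A + B * Real.log Y ≤ p * (c' * Y ^ δ - 1) := by
  have h1 : ∀ᶠ Y : ℝ in atTop, |B| * Real.log Y ≤ (p * c' / 2) * Y ^ δ := by
    have h2 := (isLittleO_log_rpow_atTop hδ).bound (c := p * c' / 2 / (|B| + 1)) (by positivity)
    filter_upwards [h2, eventually_ge_atTop 1] with Y hY hY1
    rw [Real.norm_of_nonneg (Real.log_nonneg hY1), Real.norm_of_nonneg (by positivity)] at hY
    have h3 : 0 ≤ Real.log Y := Real.log_nonneg hY1
    have h4 : |B| * Real.log Y ≤ (|B| + 1) * (p * c' / 2 / (|B| + 1) * Y ^ δ) := by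
      have h5 : (0 : ℝ) ≤ |B| := abs_nonneg B
      calc |B| * Real.log Y ≤ (|B| + 1) * Real.log Y := by nlinarith
        _ ≤ (|B| + 1) * (p * c' / 2 / (|B| + 1) * Y ^ δ) :=
          mul_le_mul_of_nonneg_left hY (by positivity)
    have h6 : (|B| + 1) * (p * c' / 2 / (|B| + 1) * Y ^ δ) = p * c' / 2 * Y ^ δ := by
      have : |B| + 1 ≠ 0 := by positivity
      field_simp
    linarith
  filter_upwards [h1, ev_rpow hδ ((A + p) / (p * c' / 2)), eventually_ge_atTop 1] with Y h2 h3 hY1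
  rw [div_le_iff₀ (by positivity)] at h3
  have h4 : B * Real.log Y ≤ |B| * Real.log Y :=
    mul_le_mul_of_nonneg_right (le_abs_self B) (Real.log_nonneg hY1)
  nlinarith

/-- **The main theorem** in the form for sequences of random variables. -/
theorem rep_ae {k : ℕ} (hk : 1 ≤ k) {Z : Set ℕ} {κ l μ : ℝ} (hκ : 0 < κ) (hκ1 : κ ≤ 1)
    (hZ : Regular Z κ l) (hμ : 0 < μ) (hμk : μ < k) {t w : ℕ} (ht : (1 - κ / k) ^ t < μ / k)
    (hw : μ < l * (w + 1)) {Ω : Type} [MeasurableSpace Ω] {P : Measure Ω} [IsProbabilityMeasure P]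
    {e : ℕ → Ω → ℕ} (he : Unif P e (fun x => ⌊(x : ℝ) ^ μ⌋₊)) :
    ∀ᵐ ω ∂P, ∀ᶠ N : ℕ in atTop, Rep k w t Z (fun x => e x ω) N := by
  classical
  obtain ⟨c, x₀, hc, hreg⟩ := hZ
  have hk0 : (0 : ℝ) < k := by exact_mod_cast hk
  obtain ⟨W, C, hW, hC, hgr⟩ := greedy hκ hκ1 hk (fun x hx => (hreg x hx).1) t
  have hw0 : (0 : ℝ) < w + 1 := by positivity
  set ρ : ℝ := (1 - κ / k) ^ t with hρ
  set β : ℝ := (2 : ℝ)⁻¹ ^ μ with hβ
  have hβ0 : 0 < β := Real.rpow_pos_of_pos (by norm_num) _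
  have hβ1 : β ≤ 1 := Real.rpow_le_one (by norm_num) (by norm_num) hμ.le
  set a0 : ℝ := (β / (8 * (w + 1))) ^ w / 2 ^ (w + 1) with ha0
  have ha00 : 0 < a0 := by positivity
  have ha01 : a0 ≤ 1 := by
    rw [ha0, div_le_one (by positivity)]
    have h1 : β / (8 * (w + 1)) ≤ 1 := by
      rw [div_le_one (by positivity)]
      have : (0 : ℝ) ≤ w := by positivity
      linarith
    have h2 : (β / (8 * (w + 1))) ^ w ≤ 1 := pow_le_one₀ (by positivity) h1
    have h3 : (1 : ℝ) ≤ 2 ^ (w + 1) := one_le_pow₀ (by norm_num)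
    linarith
  set b0 : ℝ := a0 * β ^ 2 / 2 with hb0
  have hb00 : 0 < b0 := by positivity
  have hb01 : b0 ≤ 1 := by
    have h1 : β ^ 2 ≤ 1 := pow_le_one₀ hβ0.le hβ1
    have h2 : a0 * β ^ 2 ≤ 1 * 1 := mul_le_mul ha01 h1 (by positivity) (by norm_num)
    rw [hb0]
    linarith
  set p0 : ℝ := b0 * a0 / 4 with hp0
  have hp00 : 0 < p0 := by positivity
  set δ : ℝ := l - μ / (w + 1) with hδ
  have hδ0 : 0 < δ := by
    rw [hδ, sub_pos, div_lt_iff₀ hw0]
    exact hw
  set c' : ℝ := c / (2 * (w + 1)) with hc'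
  have hc'0 : 0 < c' := by positivity
  have hμρ : 0 < μ - k * ρ := by
    rw [lt_div_iff₀ hk0] at ht
    linarith
  -- the estimate for large `Y`
  have hY : ∀ᶠ Y : ℝ in atTop, ∀ N : ℕ, 2 * (w + 1) * Y ^ k = (N : ℝ) →
      P.real {ω | ¬ Rep k w t Z (fun x => e x ω) N} ≤ 1 / (N : ℝ) ^ 2 := by
    filter_upwards [eventually_ge_atTop 1, eventually_ge_atTop x₀, eventually_ge_atTop (2 * W),
      ev_rpow hμρ (8 * (C * (2 * (w + 1)) ^ ρ) / β), ev_rpow hμ (2 / β), ev_rpow hμ (2 / b0),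
      ev_log (A := 2 * Real.log (2 * (w + 1))) (B := 2 * k) hp00 hc'0 hδ0]
      with Y hY1 hYx hYW h3 h4 h5 h6 N hYN
    have hY0 : 0 < Y := by linarith
    have hYμ0 : 0 < Y ^ μ := Real.rpow_pos_of_pos hY0 _
    have hYμ1 : 1 ≤ Y ^ μ := Real.one_le_rpow hY1 hμ.le
    have hα : (Y / 2) ^ μ = β * Y ^ μ := by
      rw [hβ, ← Real.mul_rpow (by norm_num) hY0.le]
      congr 1
      ring
    set H : ℕ := ⌊(Y / 2) ^ μ / 8 / (w + 1)⌋₊ with hH
    set a : ℝ := ((H : ℝ) + 1) ^ w / (2 * Y ^ μ) ^ (w + 1) with ha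
    have hHlow : β / (8 * (w + 1)) * Y ^ μ ≤ (H : ℝ) + 1 := by
      have h7 : (Y / 2) ^ μ / 8 / (w + 1) ≤ (H : ℝ) + 1 :=
        (Nat.lt_floor_add_one ((Y / 2) ^ μ / 8 / (w + 1))).le
      have h8 : β / (8 * (w + 1)) * Y ^ μ = (Y / 2) ^ μ / 8 / (w + 1) := by
        rw [hα]
        field_simp
      rw [h8]
      exact h7
    have hHup : (H : ℝ) + 1 ≤ 2 * Y ^ μ := by
      have h7 : (H : ℝ) ≤ (Y / 2) ^ μ / 8 / (w + 1) := Nat.floor_le (by positivity)
      have h8 : (Y / 2) ^ μ / 8 / (w + 1) ≤ Y ^ μ := by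
        rw [hα, div_div, div_le_iff₀ (by positivity)]
        have h9 : β * Y ^ μ ≤ 1 * Y ^ μ := mul_le_mul_of_nonneg_right hβ1 hYμ0.le
        have h10 : (0 : ℝ) ≤ w := by positivity
        nlinarith
      linarith
    have halow : a0 / Y ^ μ ≤ a := by
      rw [ha, div_le_div_iff₀ hYμ0 (by positivity), ha0, div_mul_eq_mul_div, div_le_iff₀ (by positivity)]
      have h7 : (β / (8 * (w + 1)) * Y ^ μ) ^ w ≤ ((H : ℝ) + 1) ^ w :=
        pow_le_pow_left₀ (by positivity) hHlow w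
      have h8 : (β / (8 * (w + 1))) ^ w * (2 * Y ^ μ) ^ (w + 1) =
          (β / (8 * (w + 1)) * Y ^ μ) ^ w * (Y ^ μ * 2 ^ (w + 1)) := by
        rw [mul_pow, mul_pow (β / (8 * (w + 1)))]
        ring
      rw [h8]
      calc (β / (8 * (w + 1)) * Y ^ μ) ^ w * (Y ^ μ * 2 ^ (w + 1))
          ≤ ((H : ℝ) + 1) ^ w * (Y ^ μ * 2 ^ (w + 1)) := mul_le_mul_of_nonneg_right h7 (by positivity)
        _ = ((H : ℝ) + 1) ^ w * Y ^ μ * 2 ^ (w + 1) := by ring
    have haup : a ≤ 1 / (2 * Y ^ μ) := by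
      rw [ha, div_le_div_iff₀ (by positivity) (by positivity), pow_succ, one_mul]
      exact mul_le_mul_of_nonneg_right (pow_le_pow_left₀ (by positivity) hHup w) (by positivity)
    have ha0' : 0 ≤ a := by positivity
    set n : ℕ := ⌊b0 * Y ^ μ⌋₊ with hn
    have hn1 : (n : ℝ) ≤ b0 * Y ^ μ := Nat.floor_le (by positivity)
    have hn2 : b0 * Y ^ μ < n + 1 := Nat.lt_floor_add_one _
    set Q : ℕ := ⌈Y ^ (μ / (w + 1))⌉₊ with hQ
    have hQ1 : Y ^ (μ / (w + 1)) ≤ Q := Nat.le_ceil _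
    have hYq1 : 1 ≤ Y ^ (μ / (w + 1)) := Real.one_le_rpow hY1 (by positivity)
    have hQ2 : (Q : ℝ) ≤ 2 * Y ^ (μ / (w + 1)) := by
      have := Nat.ceil_lt_add_one (by positivity : 0 ≤ Y ^ (μ / ((w : ℝ) + 1)))
      linarith
    set B : ℕ := ⌊c' * Y ^ δ⌋₊ with hB
    have hB1 : (B : ℝ) ≤ c' * Y ^ δ := Nat.floor_le (by positivity)
    have hB2 : c' * Y ^ δ < B + 1 := Nat.lt_floor_add_one _
    -- the hypotheses of the step
    have hone := one_step (k := k) (w := w) (t := t) hk (Z := Z) (κ := κ) (l := l) (c := c) (C := C)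
      (W := W) (μ := μ) hκ1 hC hgr hμ hμk (P := P) he N Y hY1 hYN
      ((Icc 1 ⌊Y⌋₊).filter (fun z : ℕ => z ∈ Z ∧ Y / 2 < (z : ℝ)))
      (by
        intro z hz
        rw [mem_filter, mem_Icc] at hz
        refine ⟨hz.2.1, hz.2.2, ?_⟩
        exact (Nat.le_floor_iff hY0.le).1 hz.1.2)
      (hreg Y hYx).2 B Q n
      (by
        have h7 : (n : ℝ) ≤ ((Q ^ (w + 1) : ℕ) : ℝ) := by
          push_cast
          calc (n : ℝ) ≤ b0 * Y ^ μ := hn1
            _ ≤ 1 * Y ^ μ := mul_le_mul_of_nonneg_right hb01 hYμ0.le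
            _ = (Y ^ (μ / (w + 1))) ^ (w + 1) := by
                rw [one_mul, ← Real.rpow_natCast, ← Real.rpow_mul hY0.le]
                congr 1
                push_cast
                field_simp
            _ ≤ (Q : ℝ) ^ (w + 1) := pow_le_pow_left₀ (by positivity) hQ1 _
        exact_mod_cast h7)
      (by
        calc (B : ℝ) * (w + 1) * Q ≤ (c' * Y ^ δ) * (w + 1) * (2 * Y ^ (μ / (w + 1))) := by
              apply mul_le_mul _ hQ2 (by positivity) (by positivity)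
              exact mul_le_mul_of_nonneg_right hB1 hw0.le
          _ = c * (Y ^ δ * Y ^ (μ / (w + 1))) := by
              rw [hc']
              field_simp
          _ = c * Y ^ l := by
              rw [← Real.rpow_add hY0, hδ, sub_add_cancel])
      (by
        rw [← hYN]
        have h7 : Y ≤ Y ^ k := le_self_pow₀ hY1 (by omega)
        have h8 : (0 : ℝ) ≤ w := by positivity
        nlinarith)
      (by
        rw [← hYN, hα, ← hρ, Real.mul_rpow (by positivity) (by positivity), ← Real.rpow_natCast,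
          ← Real.rpow_mul hY0.le]
        have h7 : Y ^ μ = Y ^ ((k : ℝ) * ρ) * Y ^ (μ - k * ρ) := by
          rw [← Real.rpow_add hY0]
          congr 1
          ring
        rw [div_le_iff₀ hβ0] at h3
        have h8 : 0 < Y ^ ((k : ℝ) * ρ) := Real.rpow_pos_of_pos hY0 _
        have h9 := mul_le_mul_of_nonneg_left h3 h8.le
        rw [h7]
        nlinarith)
      (by
        rw [hα]
        rw [div_le_iff₀ hβ0] at h4
        linarith)
      (by
        have h7 : b0 * Y ^ μ = (a0 / Y ^ μ) * ((Y / 2) ^ μ) ^ 2 / 2 := by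
          rw [hα, hb0]
          field_simp
        have h8 : (a0 / Y ^ μ) * ((Y / 2) ^ μ) ^ 2 / 2 ≤ a * ((Y / 2) ^ μ) ^ 2 / 2 := by
          apply div_le_div_of_nonneg_right _ (by norm_num)
          exact mul_le_mul_of_nonneg_right halow (by positivity)
        exact (hn1.trans (le_of_eq h7)).trans h8)
    refine hone.trans ?_
    -- the final numerical estimate
    have hna1 : p0 ≤ n * a / 2 := by
      have h7 : b0 * Y ^ μ / 2 ≤ n := by
        rw [div_le_iff₀ hb00] at h5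
        linarith
      have h8 : (b0 * Y ^ μ / 2) * (a0 / Y ^ μ) ≤ n * a :=
        mul_le_mul h7 halow (by positivity) (by positivity)
      have h9 : (b0 * Y ^ μ / 2) * (a0 / Y ^ μ) = b0 * a0 / 2 := by field_simp
      rw [h9] at h8
      rw [hp0]
      linarith
    have hna2 : n * a / 2 ≤ 1 := by
      have h7 : n * a ≤ (b0 * Y ^ μ) * (1 / (2 * Y ^ μ)) :=
        mul_le_mul hn1 haup ha0' (by positivity)
      have h8 : (b0 * Y ^ μ) * (1 / (2 * Y ^ μ)) = b0 / 2 := by field_simp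
      linarith
    have hbase : (1 - n * a / 2) ^ B ≤ Real.exp (-(p0 * B)) := by
      calc (1 - n * a / 2) ^ B ≤ (Real.exp (-p0)) ^ B := by
            apply pow_le_pow_left₀ (by linarith)
            have h7 := Real.add_one_le_exp (-p0)
            linarith
        _ = Real.exp (-(p0 * B)) := by
            rw [← Real.exp_nat_mul]
            congr 1
            ring
    refine hbase.trans ?_
    have hN0 : (0 : ℝ) < N := by
      rw [← hYN]
      positivity
    have hlogN : Real.log (N : ℝ) = Real.log (2 * (w + 1)) + k * Real.log Y := by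
      rw [← hYN, Real.log_mul (by positivity) (by positivity), Real.log_pow]
    have h8 : 1 / (N : ℝ) ^ 2 = Real.exp (-(2 * Real.log N)) := by
      rw [Real.exp_neg, one_div]
      congr 1
      rw [two_mul, Real.exp_add, Real.exp_log hN0, sq]
    rw [h8, Real.exp_le_exp]
    have h9 : p0 * (c' * Y ^ δ - 1) ≤ p0 * B := mul_le_mul_of_nonneg_left (by linarith) hp00.le
    rw [hlogN]
    linarith
  -- transfer to `N`
  have hYN : Tendsto (fun N : ℕ => ((N : ℝ) / (2 * (w + 1))) ^ (1 / (k : ℝ))) atTop atTop :=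
    (tendsto_rpow_atTop (by positivity)).comp
      (tendsto_natCast_atTop_atTop.atTop_div_const (by positivity))
  have hN : ∀ᶠ N : ℕ in atTop, P.real {ω | ¬ Rep k w t Z (fun x => e x ω) N} ≤ 1 / (N : ℝ) ^ 2 := by
    filter_upwards [hYN.eventually hY] with N h
    apply h
    have h1 : (0 : ℝ) ≤ (N : ℝ) / (2 * (w + 1)) := by positivity
    rw [← Real.rpow_natCast, ← Real.rpow_mul h1, one_div_mul_cancel hk0.ne', Real.rpow_one]
    field_simp
  obtain ⟨N0, hN0⟩ := eventually_atTop.1 hN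
  have hsum : ∑' N : ℕ, P {ω | ¬ Rep k w t Z (fun x => e x ω) (N + N0)} ≠ ⊤ := by
    have h1 : Summable (fun N : ℕ => 1 / ((N + N0 : ℕ) : ℝ) ^ 2) := by
      have h2 := (summable_nat_add_iff N0).2 (Real.summable_one_div_nat_pow.2 (one_lt_two : (1 : ℕ) < 2))
      exact h2
    have h3 : ∑' N : ℕ, ENNReal.ofReal (1 / ((N + N0 : ℕ) : ℝ) ^ 2) ≠ ⊤ := h1.tsum_ofReal_ne_top
    refine ne_top_of_le_ne_top h3 (ENNReal.tsum_le_tsum fun N => ?_)
    have h4 := hN0 (N + N0) (Nat.le_add_left _ _)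
    rw [measureReal_def] at h4
    exact (ENNReal.le_ofReal_iff_toReal_le (measure_ne_top _ _) (by positivity)).2 h4
  filter_upwards [ae_eventually_notMem hsum] with ω hω
  obtain ⟨N1, hN1⟩ := eventually_atTop.1 hω
  rw [eventually_atTop]
  refine ⟨N1 + N0, fun N hN => ?_⟩
  have h1 := hN1 (N - N0) (by omega)
  have h2 : N - N0 + N0 = N := by omega
  simp only [Set.mem_setOf_eq, not_not, h2] at h1
  exact h1

end Pool.Agent.Q241.PW
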