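import Mathlib

/-!
# The number of exact powers that is needed
-/

set_option autoImplicit false

namespace Pool.Agent.Q241.PW

/-- `4 k - ⌊k/40⌋ - 1` exact powers suffice for perturbations below `x ^ (k/40)`. -/
theorem four_k {k : ℕ} (hk : 1 ≤ k) :
    (1 - 1 / (k : ℝ)) ^ (4 * k - (k / 40 + 1)) < ((k : ℝ) / 40) / k := by
  have hk0 : (0 : ℝ) < k := by exact_mod_cast hk
  have h40 : ((k : ℝ) / 40) / k = 1 / 40 := by
    field_simp
  rw [h40]
  rcases Nat.lt_or_ge k 4 with h | h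
  · interval_cases k
    · norm_num
    · norm_num
    · norm_num
  · have hkR : (4 : ℝ) ≤ k := by exact_mod_cast h
    have h1 : (1 - 1 / (k : ℝ)) ≤ Real.exp (-(1 / k)) := by
      have := Real.add_one_le_exp (-(1 / (k : ℝ)))
      linarith
    have h0 : 0 ≤ 1 - 1 / (k : ℝ) := by
      rw [sub_nonneg, div_le_one hk0]
      linarith
    set t : ℕ := 4 * k - (k / 40 + 1) with ht
    have ht1 : (t : ℝ) ≥ 4 * k - k / 40 - 1 := by
      have h2 : k / 40 + 1 ≤ 4 * k := by omega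
      rw [ht, Nat.cast_sub h2]
      push_cast
      have h3 : ((k / 40 : ℕ) : ℝ) ≤ (k : ℝ) / 40 := Nat.cast_div_le
      linarith
    have h4 : (1 - 1 / (k : ℝ)) ^ t ≤ Real.exp (-(t / k)) := by
      calc (1 - 1 / (k : ℝ)) ^ t ≤ (Real.exp (-(1 / k))) ^ t := pow_le_pow_left₀ h0 h1 t
        _ = Real.exp (-(t / k)) := by
            rw [← Real.exp_nat_mul]
            congr 1
            ring
    have h5 : 149 / 40 ≤ (t : ℝ) / k := by
      rw [le_div_iff₀ hk0]
      linarith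
    have h6 : (40 : ℝ) < Real.exp (149 / 40) := by
      have e1 : Real.exp (149 / 40) = Real.exp 1 ^ 3 * Real.exp (29 / 80) ^ 2 := by
        rw [← Real.exp_nat_mul, ← Real.exp_nat_mul, ← Real.exp_add]
        norm_num
      have e2 := Real.exp_one_gt_d9
      have e3 : (1 : ℝ) + 29 / 80 + (29 / 80) ^ 2 / 2 ≤ Real.exp (29 / 80) :=
        Real.quadratic_le_exp_of_nonneg (by norm_num)
      have e4 : (2.718 : ℝ) ^ 3 ≤ Real.exp 1 ^ 3 := pow_le_pow_left₀ (by norm_num) (by linarith) 3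
      have e5 : ((1 : ℝ) + 29 / 80 + (29 / 80) ^ 2 / 2) ^ 2 ≤ Real.exp (29 / 80) ^ 2 :=
        pow_le_pow_left₀ (by norm_num) e3 2
      rw [e1]
      calc (40 : ℝ) < 2.718 ^ 3 * ((1 : ℝ) + 29 / 80 + (29 / 80) ^ 2 / 2) ^ 2 := by norm_num
        _ ≤ _ := mul_le_mul e4 e5 (by positivity) (by positivity)
    have h7 : Real.exp (-(t / k)) ≤ Real.exp (-(149 / 40)) := Real.exp_le_exp.2 (by linarith)
    have h8 : Real.exp (-(149 / 40)) < 1 / 40 := by
      rw [Real.exp_neg, one_div]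
      exact inv_strictAnti₀ (by norm_num) h6
    linarith

end Pool.Agent.Q241.PW
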