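import Pool.Agent.Q241.PW.Gr
import Pool.Agent.H295R3.Hoheisel

/-!
# The positive integers and the primes are regular
-/

set_option autoImplicit false
set_option linter.deprecated false

namespace Pool.Agent.Q241.PW

open Finset Filter Topology

/-- The positive integers. -/
lemma regular_pos : Regular {n : ℕ | 1 ≤ n} 1 1 := by
  classical
  refine ⟨1 / 4, 8, by norm_num, fun x hx => ⟨⟨⌊x⌋₊, ?_, ?_, Nat.floor_le (by linarith)⟩, ?_⟩⟩
  · show 1 ≤ ⌊x⌋₊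
    exact Nat.le_floor (by push_cast; linarith)
  · have h1 := Nat.lt_floor_add_one x
    rw [sub_self, Real.rpow_zero]
    linarith
  · rw [Real.rpow_one]
    have hsub : Ioc ⌊x / 2⌋₊ ⌊x⌋₊ ⊆
        (Icc 1 ⌊x⌋₊).filter (fun z : ℕ => z ∈ {n : ℕ | 1 ≤ n} ∧ x / 2 < (z : ℝ)) := by
      intro z hz
      rw [mem_Ioc] at hz
      rw [mem_filter, mem_Icc]
      have h1 : 1 ≤ z := by omega
      exact ⟨⟨h1, hz.2⟩, h1, (Nat.floor_lt (by linarith)).1 hz.1⟩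
    have h4 : ⌊x / 2⌋₊ ≤ ⌊x⌋₊ := Nat.floor_le_floor (by linarith)
    have h5 := Nat.lt_floor_add_one x
    have h6 : (⌊x / 2⌋₊ : ℝ) ≤ x / 2 := Nat.floor_le (by linarith)
    have h7 : 1 / 4 * x ≤ ((Ioc ⌊x / 2⌋₊ ⌊x⌋₊).card : ℝ) := by
      rw [Nat.card_Ioc, Nat.cast_sub h4]
      linarith
    refine h7.trans ?_
    exact_mod_cast card_le_card hsub

/-- The primes. -/
lemma regular_prime : ∃ κ : ℝ, 0 < κ ∧ κ ≤ 1 ∧ ∀ l : ℝ, l < 1 → Regular {p : ℕ | p.Prime} κ l := by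
  classical
  obtain ⟨δ, η, hδ, hδ1, hη, X₀, hX₀, hH⟩ := Pool.Agent.H295R3.D.hoheisel
  refine ⟨δ / 2, by linarith, by linarith, fun l hl => ?_⟩
  have hl' : 0 < (1 - l) / 2 := by linarith
  -- eventual inequalities
  have e1 : ∀ᶠ x : ℝ in atTop, x ^ (1 - δ) + 2 ≤ x ^ (1 - δ / 2) := by
    have h1 : ∀ᶠ x : ℝ in atTop, 3 ≤ x ^ (δ / 2) :=
      (tendsto_rpow_atTop (by linarith)).eventually_ge_atTop 3
    filter_upwards [h1, eventually_ge_atTop 1] with x h1 hx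
    have h2 : x ^ (1 - δ / 2) = x ^ (1 - δ) * x ^ (δ / 2) := by
      rw [← Real.rpow_add (by linarith)]
      congr 1
      ring
    have h3 : 1 ≤ x ^ (1 - δ) := Real.one_le_rpow hx (by linarith)
    rw [h2]
    nlinarith
  have e2 : ∀ᶠ x : ℝ in atTop, x ^ (1 - δ) ≤ x / 8 := by
    have h1 : ∀ᶠ x : ℝ in atTop, 8 ≤ x ^ δ := (tendsto_rpow_atTop hδ).eventually_ge_atTop 8
    filter_upwards [h1, eventually_ge_atTop 1] with x h1 hx
    have h2 : x = x ^ (1 - δ) * x ^ δ := by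
      rw [← Real.rpow_add (by linarith), sub_add_cancel, Real.rpow_one]
    have h3 : 0 < x ^ (1 - δ) := Real.rpow_pos_of_pos (by linarith) _
    nlinarith
  have e3 : ∀ᶠ x : ℝ in atTop, x ^ l ≤ η * (x / 4) / Real.log x := by
    have h1 := (isLittleO_log_rpow_atTop hl').bound (c := 1) one_pos
    have h2 : ∀ᶠ x : ℝ in atTop, 4 / η ≤ x ^ ((1 - l) / 2) :=
      (tendsto_rpow_atTop hl').eventually_ge_atTop _
    filter_upwards [h1, h2, eventually_ge_atTop 2] with x h1 h2 hx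
    have hlog : 0 < Real.log x := Real.log_pos (by linarith)
    have hx0 : 0 < x := by linarith
    rw [Real.norm_of_nonneg hlog.le, Real.norm_of_nonneg (by positivity), one_mul] at h1
    rw [le_div_iff₀ hlog]
    rw [div_le_iff₀ hη] at h2
    have h3 : x = x ^ l * (x ^ ((1 - l) / 2) * x ^ ((1 - l) / 2)) := by
      rw [← Real.rpow_add hx0, ← Real.rpow_add hx0]
      have h4 : l + ((1 - l) / 2 + (1 - l) / 2) = 1 := by ring
      rw [h4, Real.rpow_one]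
    have h5 : 0 < x ^ l := Real.rpow_pos_of_pos hx0 _
    have h6 : 0 < x ^ ((1 - l) / 2) := Real.rpow_pos_of_pos hx0 _
    calc x ^ l * Real.log x ≤ x ^ l * x ^ ((1 - l) / 2) := mul_le_mul_of_nonneg_left h1 h5.le
      _ ≤ x ^ l * x ^ ((1 - l) / 2) * (x ^ ((1 - l) / 2) * η / 4) := by
          have h7 : 1 ≤ x ^ ((1 - l) / 2) * η / 4 := by linarith
          nlinarith [mul_pos h5 h6]
      _ = η * ((x ^ l * (x ^ ((1 - l) / 2) * x ^ ((1 - l) / 2))) / 4) := by ring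
      _ = η * (x / 4) := by rw [← h3]
  obtain ⟨x₀, hx₀⟩ := eventually_atTop.1 (e1.and (e2.and (e3.and
    (eventually_ge_atTop (max 16 (4 * (X₀ : ℝ)))))))
  refine ⟨1, x₀, one_pos, fun x hx => ?_⟩
  obtain ⟨h1, h2, h3, h4⟩ := hx₀ x hx
  have hx16 : 16 ≤ x := (le_max_left _ _).trans h4
  have hxX : 4 * (X₀ : ℝ) ≤ x := (le_max_right _ _).trans h4
  have hx0 : 0 < x := by linarith
  have hfl1 : (⌊x⌋₊ : ℝ) ≤ x := Nat.floor_le hx0.le
  have hfl2 : x < ⌊x⌋₊ + 1 := Nat.lt_floor_add_one x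
  constructor
  · set Y : ℕ := ⌈x ^ (1 - δ)⌉₊ with hY
    have hY1 : x ^ (1 - δ) ≤ Y := Nat.le_ceil _
    have hY2 : (Y : ℝ) < x ^ (1 - δ) + 1 := Nat.ceil_lt_add_one (Real.rpow_nonneg hx0.le _)
    have hYx : Y ≤ ⌊x⌋₊ := by
      have : (Y : ℝ) < ⌊x⌋₊ + 1 := by linarith
      exact_mod_cast Nat.lt_succ_iff.1 (by exact_mod_cast this)
    have hXc : ((⌊x⌋₊ - Y : ℕ) : ℝ) = ⌊x⌋₊ - Y := Nat.cast_sub hYx
    have hX1 : X₀ ≤ ⌊x⌋₊ - Y := by
      have : (X₀ : ℝ) ≤ ((⌊x⌋₊ - Y : ℕ) : ℝ) := by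
        rw [hXc]
        linarith
      exact_mod_cast this
    have hXx : ((⌊x⌋₊ - Y : ℕ) : ℝ) ≤ x := by
      rw [hXc]
      have : (0 : ℝ) ≤ Y := by positivity
      linarith
    have hX2 : ((⌊x⌋₊ - Y : ℕ) : ℝ) ^ (1 - δ) ≤ Y :=
      (Real.rpow_le_rpow (by positivity) hXx (by linarith)).trans hY1
    have hX3 : Y ≤ ⌊x⌋₊ - Y := by
      have : (Y : ℝ) ≤ ((⌊x⌋₊ - Y : ℕ) : ℝ) := by
        rw [hXc]
        linarith
      exact_mod_cast this
    have hcount := hH (⌊x⌋₊ - Y) Y hX1 hX2 hX3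
    have hXge2 : (2 : ℝ) ≤ ((⌊x⌋₊ - Y : ℕ) : ℝ) := by
      have : (2 : ℝ) ≤ (X₀ : ℝ) := by exact_mod_cast hX₀
      have h5 : (X₀ : ℝ) ≤ ((⌊x⌋₊ - Y : ℕ) : ℝ) := by exact_mod_cast hX1
      linarith
    have hYpos : 0 < (Y : ℝ) := lt_of_lt_of_le (Real.rpow_pos_of_pos hx0 _) hY1
    have hpos : 0 < η * Y / Real.log ((⌊x⌋₊ - Y : ℕ) : ℝ) :=
      div_pos (mul_pos hη hYpos) (Real.log_pos (by linarith))
    have hne : 0 < ((Ioc (⌊x⌋₊ - Y) (⌊x⌋₊ - Y + Y)).filter Nat.Prime).card := by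
      have := lt_of_lt_of_le hpos hcount
      exact_mod_cast this
    obtain ⟨p, hp⟩ := card_pos.1 hne
    rw [mem_filter, mem_Ioc, Nat.sub_add_cancel hYx] at hp
    refine ⟨p, hp.2, ?_, ?_⟩
    · have h5 : ((⌊x⌋₊ - Y : ℕ) : ℝ) < p := by exact_mod_cast hp.1.1
      rw [hXc] at h5
      linarith
    · have h5 : (p : ℝ) ≤ ⌊x⌋₊ := by exact_mod_cast hp.1.2
      linarith
  · set X : ℕ := ⌊x / 2⌋₊ with hX
    have hX1 : (X : ℝ) ≤ x / 2 := Nat.floor_le (by linarith)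
    have hX2 : x / 2 < X + 1 := Nat.lt_floor_add_one _
    have hX3 : X₀ ≤ X := by
      have h5 : (X₀ : ℝ) < X + 1 := by linarith
      exact Nat.lt_succ_iff.1 (by exact_mod_cast h5)
    have hX4 : (1 : ℝ) ≤ X := by linarith
    have hX5 : (X : ℝ) ^ (1 - δ) ≤ X := by
      calc (X : ℝ) ^ (1 - δ) ≤ (X : ℝ) ^ (1 : ℝ) := Real.rpow_le_rpow_of_exponent_le hX4 (by linarith)
        _ = X := Real.rpow_one _
    have hcount := hH X X hX3 hX5 le_rfl
    have hlogX : 0 < Real.log X := Real.log_pos (by linarith)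
    have hlog : Real.log X ≤ Real.log x := Real.log_le_log (by linarith) (by linarith)
    have h6 : η * (x / 4) / Real.log x ≤ η * X / Real.log X := by
      apply div_le_div₀ (by positivity) _ hlogX hlog
      exact mul_le_mul_of_nonneg_left (by linarith) hη.le
    rw [one_mul]
    refine h3.trans (h6.trans (hcount.trans ?_))
    have hsub : (Ioc X (X + X)).filter Nat.Prime ⊆
        (Icc 1 ⌊x⌋₊).filter (fun z : ℕ => z ∈ {p : ℕ | p.Prime} ∧ x / 2 < (z : ℝ)) := by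
      intro z hz
      rw [mem_filter, mem_Ioc] at hz
      rw [mem_filter, mem_Icc]
      refine ⟨⟨hz.2.one_lt.le, ?_⟩, hz.2, ?_⟩
      · apply Nat.le_floor
        have h7 : (z : ℝ) ≤ ((X + X : ℕ) : ℝ) := by exact_mod_cast hz.1.2
        push_cast at h7
        linarith
      · have h7 : ((X + 1 : ℕ) : ℝ) ≤ z := by exact_mod_cast hz.1.1
        push_cast at h7
        linarith
    exact_mod_cast card_le_card hsub

end Pool.Agent.Q241.PW
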