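import Pool.Agent.Q241.PW.Gr

/-!
# The probability that a given number is not represented
-/

set_option autoImplicit false
set_option linter.deprecated false

namespace Pool.Agent.Q241.PW

open Finset MeasureTheory ProbabilityTheory

/-- `N` is a sum of `w + 1` perturbed `k`-th powers and `t` `k`-th powers of elements of `Z`. -/
def Rep (k w t : ℕ) (Z : Set ℕ) (f : ℕ → ℕ) (N : ℕ) : Prop :=
  ∃ (y : Fin (w + 1) → ℕ) (z : Fin t → ℕ), (∀ i, y i ∈ Z) ∧ Function.Injective y ∧ (∀ j, z j ∈ Z) ∧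
    N = ∑ i, (y i ^ k + f (y i)) + ∑ j, z j ^ k

/-- The numbering of the index set. -/
lemma idx_inj {w Q : ℕ} {b b' : ℕ} {i i' : Fin (w + 1)} {s s' : Fin Q}
    (h : (b * (w + 1) + i) * Q + s = (b' * (w + 1) + i') * Q + s') : b = b' ∧ i = i' ∧ s = s' := by
  have hQ : 0 < Q := lt_of_le_of_lt (Nat.zero_le _) s.2
  have h1 : (s : ℕ) = s' := by
    have h2 := congrArg (fun x => x % Q) h
    simp only [Nat.mul_add_mod_of_lt s.2, Nat.mul_add_mod_of_lt s'.2] at h2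
    exact h2
  have h3 : b * (w + 1) + i = b' * (w + 1) + i' := by
    have h4 : (b * (w + 1) + i) * Q = (b' * (w + 1) + i') * Q := by omega
    exact Nat.eq_of_mul_eq_mul_right hQ h4
  have h5 : (i : ℕ) = i' := by
    have h6 := congrArg (fun x => x % (w + 1)) h3
    simp only [Nat.mul_add_mod_of_lt i.2, Nat.mul_add_mod_of_lt i'.2] at h6
    exact h6
  have h7 : b = b' := by
    have h8 : b * (w + 1) = b' * (w + 1) := by omega
    exact Nat.eq_of_mul_eq_mul_right (Nat.succ_pos w) h8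
  exact ⟨h7, Fin.ext h5, Fin.ext h1⟩

/-- The estimate for one `N`. -/
lemma one_step {k w t : ℕ} (hk : 1 ≤ k) {Z : Set ℕ} {κ l c C W μ : ℝ} (hκ1 : κ ≤ 1)
    (hC : 0 < C)
    (hgr : ∀ M : ℝ, W ≤ M → ∃ z : Fin t → ℕ, (∀ i, z i ∈ Z) ∧
      ∑ i, (z i : ℝ) ^ k ≤ M ∧ M - ∑ i, (z i : ℝ) ^ k ≤ C * M ^ ((1 - κ / k) ^ t))
    (hμ : 0 < μ) (hμk : μ < k) {Ω : Type} [MeasurableSpace Ω] {P : Measure Ω} [IsProbabilityMeasure P]
    {e : ℕ → Ω → ℕ} (he : Unif P e (fun x => ⌊(x : ℝ) ^ μ⌋₊)) (N : ℕ) (Y : ℝ) (hY : 1 ≤ Y)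
    (hYN : 2 * (w + 1) * Y ^ k = (N : ℝ)) (T : Finset ℕ)
    (hT : ∀ z ∈ T, z ∈ Z ∧ Y / 2 < (z : ℝ) ∧ (z : ℝ) ≤ Y)
    (hcount : c * Y ^ l ≤ (T.card : ℝ)) (B Q n : ℕ)
    (hQ : n ≤ Q ^ (w + 1)) (hB : (B * (w + 1) * Q : ℝ) ≤ c * Y ^ l)
    (c1 : W ≤ N / 4) (c2 : C * (N : ℝ) ^ ((1 - κ / k) ^ t) ≤ (Y / 2) ^ μ / 8) (c3 : 2 ≤ (Y / 2) ^ μ)
    (hn2 : (n : ℝ) ≤ (((⌊(Y / 2) ^ μ / 8 / (w + 1)⌋₊ : ℝ) + 1) ^ w / (2 * Y ^ μ) ^ (w + 1)) *
      ((Y / 2) ^ μ) ^ 2 / 2) :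
    P.real {ω | ¬ Rep k w t Z (fun x => e x ω) N} ≤
      (1 - n * (((⌊(Y / 2) ^ μ / 8 / (w + 1)⌋₊ : ℝ) + 1) ^ w / (2 * Y ^ μ) ^ (w + 1)) / 2) ^ B := by
  classical
  have hk0 : (0 : ℝ) < k := by exact_mod_cast hk
  have hk1 : (1 : ℝ) ≤ k := by exact_mod_cast hk
  have hρ0 : 0 ≤ (1 - κ / k) ^ t := by
    apply pow_nonneg
    rw [sub_nonneg, div_le_one hk0]
    linarith
  have hY0 : 0 < Y := by linarith
  have hw0 : (0 : ℝ) < w + 1 := by positivity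
  set R1 : ℝ := (Y / 2) ^ μ with hR1
  have hR10 : 0 < R1 := Real.rpow_pos_of_pos (by positivity) _
  set L : ℝ := R1 / 8 with hL
  set H : ℕ := ⌊L / (w + 1)⌋₊ with hH
  have hYμ : 1 ≤ Y ^ μ := Real.one_le_rpow hY hμ.le
  -- the indices
  have hcard : B * (w + 1) * Q ≤ T.card := by
    have h1 : ((B * (w + 1) * Q : ℕ) : ℝ) ≤ T.card := by
      push_cast
      linarith
    exact_mod_cast h1
  set ix : ℕ → Fin (w + 1) → Fin Q → ℕ := fun b i s => (b * (w + 1) + i) * Q + s with hix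
  have hixlt : ∀ b < B, ∀ i s, ix b i s < T.card := by
    intro b hb i s
    refine lt_of_lt_of_le ?_ hcard
    have h1 : b * (w + 1) + i < B * (w + 1) := by
      have h2 : (b + 1) * (w + 1) ≤ B * (w + 1) := Nat.mul_le_mul_right _ hb
      have h3 := i.2
      have h4 : (b + 1) * (w + 1) = b * (w + 1) + (w + 1) := by ring
      omega
    have h2 : (b * (w + 1) + i + 1) * Q ≤ B * (w + 1) * Q := Nat.mul_le_mul_right _ h1
    have h3 := s.2
    have h4 : (b * (w + 1) + i + 1) * Q = (b * (w + 1) + i) * Q + Q := by ring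
    simp only [hix]
    omega
  set g : ℕ → Fin (w + 1) → Fin Q → ℕ := fun b i s =>
    if h : ix b i s < T.card then T.orderEmbOfFin rfl ⟨ix b i s, h⟩ else 0 with hg
  have hgT : ∀ b < B, ∀ i s, g b i s ∈ T := by
    intro b hb i s
    simp only [hg]
    rw [dif_pos (hixlt b hb i s)]
    exact T.orderEmbOfFin_mem rfl _
  have hginj : ∀ b < B, ∀ b' < B, ∀ i i' s s', g b i s = g b' i' s' → b = b' ∧ i = i' ∧ s = s' := by
    intro b hb b' hb' i i' s s' h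
    simp only [hg] at h
    rw [dif_pos (hixlt b hb i s), dif_pos (hixlt b' hb' i' s')] at h
    have h1 := (T.orderEmbOfFin rfl).injective h
    have h2 := congrArg Fin.val h1
    exact idx_inj h2
  -- the values of the range function
  have hr1 : ∀ b < B, ∀ i s, R1 ≤ ((⌊(g b i s : ℝ) ^ μ⌋₊ : ℕ) : ℝ) + 1 := by
    intro b hb i s
    have h1 := hT _ (hgT b hb i s)
    have h2 : R1 ≤ (g b i s : ℝ) ^ μ := Real.rpow_le_rpow (by positivity) h1.2.1.le hμ.le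
    exact h2.trans (Nat.lt_floor_add_one _).le
  have hr2 : ∀ b < B, ∀ i s, ((⌊(g b i s : ℝ) ^ μ⌋₊ : ℕ) : ℝ) + 1 ≤ 2 * Y ^ μ := by
    intro b hb i s
    have h1 := hT _ (hgT b hb i s)
    have h2 : (g b i s : ℝ) ^ μ ≤ Y ^ μ := Real.rpow_le_rpow (by positivity) h1.2.2 hμ.le
    have h3 := Nat.floor_le (Real.rpow_nonneg (Nat.cast_nonneg (g b i s)) μ)
    linarith
  have hLr : ∀ b < B, ∀ i s, ∀ a : ℕ, (a : ℝ) ≤ 2 * L → a ≤ ⌊(g b i s : ℝ) ^ μ⌋₊ := by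
    intro b hb i s a ha
    have h1 := hr1 b hb i s
    have h2 : (a : ℝ) < ((⌊(g b i s : ℝ) ^ μ⌋₊ : ℕ) : ℝ) + 1 := by linarith
    have h3 : a < ⌊(g b i s : ℝ) ^ μ⌋₊ + 1 := by exact_mod_cast h2
    omega
  have hHL : (H : ℝ) ≤ L / (w + 1) := Nat.floor_le (by positivity)
  have hHL' : (w : ℝ) * H ≤ L := by
    rw [le_div_iff₀ hw0] at hHL
    have h1 : (0 : ℝ) ≤ H := by positivity
    nlinarith
  have hH2 : (H : ℝ) ≤ 2 * L := by
    rw [le_div_iff₀ hw0] at hHL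
    have h1 : (0 : ℝ) ≤ H := by positivity
    have h2 : (0 : ℝ) ≤ w := by positivity
    nlinarith
  -- the remainder
  have hLN : L ≤ N / 16 := by
    have h1 : R1 ≤ Y ^ μ := Real.rpow_le_rpow (by positivity) (by linarith) hμ.le
    have h2 : Y ^ μ ≤ Y ^ (k : ℝ) := Real.rpow_le_rpow_of_exponent_le hY hμk.le
    rw [Real.rpow_natCast] at h2
    have h3 : 2 * Y ^ k ≤ N := by
      rw [← hYN]
      have h4 : (0 : ℝ) ≤ Y ^ k := by positivity
      have h5 : (0 : ℝ) ≤ w := by positivity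
      nlinarith
    linarith
  have hrem : ∀ y : Fin (w + 1) → ℕ, ∃ D : ℕ, (∑ i, (y i : ℝ) ^ k ≤ N / 2) →
      ∃ z : Fin t → ℕ, (∀ i, z i ∈ Z) ∧ N = ∑ i, y i ^ k + ∑ j, z j ^ k + D ∧ L ≤ D ∧
        (D : ℝ) ≤ 2 * L := by
    intro y
    by_cases hy : ∑ i, (y i : ℝ) ^ k ≤ N / 2
    · obtain ⟨z, hzZ, hz1, hz2⟩ := hgr (N - L - ∑ i, (y i : ℝ) ^ k) (by linarith)
      have hN0 : (0 : ℝ) ≤ N := by positivity
      have hy0 : 0 ≤ ∑ i, (y i : ℝ) ^ k := Finset.sum_nonneg fun i _ => by positivity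
      have h1 : (N - L - ∑ i, (y i : ℝ) ^ k) ^ ((1 - κ / k) ^ t) ≤ (N : ℝ) ^ ((1 - κ / k) ^ t) := by
        apply Real.rpow_le_rpow (by linarith) (by linarith) hρ0
      have h2 := mul_le_mul_of_nonneg_left h1 hC.le
      have h3 : ∑ i, y i ^ k + ∑ j, z j ^ k ≤ N := by
        have h4 : ((∑ i, y i ^ k + ∑ j, z j ^ k : ℕ) : ℝ) ≤ N := by
          push_cast
          linarith
        exact_mod_cast h4
      refine ⟨N - (∑ i, y i ^ k + ∑ j, z j ^ k), fun _ => ⟨z, hzZ, by omega, ?_, ?_⟩⟩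
      · rw [Nat.cast_sub h3]
        push_cast
        linarith
      · rw [Nat.cast_sub h3]
        push_cast
        linarith
    · exact ⟨0, fun h => absurd h hy⟩
  choose D hD using hrem
  have hysum : ∀ b < B, ∀ s : Fin (w + 1) → Fin Q, ∑ i, (g b i (s i) : ℝ) ^ k ≤ N / 2 := by
    intro b hb s
    calc ∑ i, (g b i (s i) : ℝ) ^ k ≤ ∑ _i : Fin (w + 1), Y ^ k :=
          Finset.sum_le_sum fun i _ => pow_le_pow_left₀ (by positivity) (hT _ (hgT b hb i (s i))).2.2 k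
      _ = (w + 1) * Y ^ k := by
          rw [Finset.sum_const, Finset.card_univ, Fintype.card_fin, nsmul_eq_mul]
          push_cast
          ring
      _ = N / 2 := by
          rw [← hYN]
          ring
  have hcore := core (P := P) he (B := B) (Q := Q) g hginj hR10 hr1 hr2 (H := H)
    (fun b hb i s => hLr b hb i s H hH2) D
    (fun b hb s => by
      obtain ⟨z, -, -, h3, h4⟩ := hD (fun i => g b i (s i)) (hysum b hb s)
      refine ⟨?_, hLr b hb 0 (s 0) _ h4⟩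
      have h5 : ((w * H : ℕ) : ℝ) ≤ (D (fun i => g b i (s i)) : ℝ) := by
        push_cast
        linarith
      exact_mod_cast h5) hQ (by positivity) hn2
  refine le_trans (measureReal_mono ?_ (measure_ne_top _ _)) hcore
  intro ω hω b hb s hsum
  apply hω
  obtain ⟨z, hzZ, hN, -, -⟩ := hD (fun i => g b i (s i)) (hysum b hb s)
  refine ⟨fun i => g b i (s i), z, fun i => (hT _ (hgT b hb i (s i))).1, ?_, hzZ, ?_⟩
  · intro i j hij
    exact (hginj b hb b hb _ _ _ _ hij).2.1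
  · beta_reduce
    rw [Finset.sum_add_distrib, hsum]
    omega

end Pool.Agent.Q241.PW
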